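import Mathlib

/-!
# Filtrations and subquotients: linear algebra
-/

namespace Pool.Agent.R937.JC

variable {K V : Type*} [Field K] [AddCommGroup V] [Module K V]

/-- In a filtered space the eigenvalue of a Jordan block of size at least two occurs either twice in
the graded pieces, or in a Jordan block of a graded piece. -/
lemma block_of_fil {T : Module.End K V} {fil : ℕ → Submodule K V} {n : ℕ} (h0 : fil 0 = ⊥)
    (hn : fil n = ⊤) (hm : Monotone fil) {μ : K}
    {x : V} (hx : T (T x - μ • x) - μ • (T x - μ • x) = 0) (hx1 : T x - μ • x ≠ 0) :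
    (∃ b c, b < n ∧ c < b ∧ (∃ y ∈ fil (b + 1), y ∉ fil b ∧ T y - μ • y ∈ fil b) ∧
        ∃ z ∈ fil (c + 1), z ∉ fil c ∧ T z - μ • z ∈ fil c) ∨
      ∃ b, b < n ∧ ∃ y ∈ fil (b + 1), T (T y - μ • y) - μ • (T y - μ • y) ∈ fil b ∧
        T y - μ • y ∉ fil b := by
  classical
  have hex : ∀ y : V, ∃ b, y ∈ fil b := fun y => ⟨n, by rw [hn]; trivial⟩
  have hmin : ∀ y : V, y ≠ 0 → ∃ b, b < n ∧ y ∈ fil (b + 1) ∧ y ∉ fil b := by
    intro y hy
    have h1 := Nat.find_spec (hex y)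
    have h2 := fun m => Nat.find_min (hex y) (m := m)
    have h3 : Nat.find (hex y) ≤ n := Nat.find_min' (hex y) (by rw [hn]; trivial)
    rcases hb : Nat.find (hex y) with _ | b
    · rw [hb, h0] at h1
      exact absurd ((Submodule.mem_bot K).1 h1) hy
    · rw [hb] at h1 h2 h3
      exact ⟨b, by omega, h1, h2 b (Nat.lt_succ_self b)⟩
  have hx0 : x ≠ 0 := by
    rintro rfl
    apply hx1
    simp
  obtain ⟨b, hb, hxb, hxb'⟩ := hmin x hx0
  by_cases hy : T x - μ • x ∈ fil b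
  · left
    obtain ⟨c, hc, hyc, hyc'⟩ := hmin _ hx1
    refine ⟨b, c, hb, ?_, ⟨x, hxb, hxb', hy⟩, T x - μ • x, hyc, hyc', ?_⟩
    · by_contra hcb
      push Not at hcb
      exact hyc' (hm hcb hy)
    · rw [hx]
      exact Submodule.zero_mem _
  · right
    refine ⟨b, hb, x, hxb, ?_, hy⟩
    rw [hx]
    exact Submodule.zero_mem _

/-- The decomposition of an invariant subspace. -/
lemma split [Module.Finite K V] {S : Module.End K V} {U : Submodule K V} (hst : ∀ u ∈ U, S u ∈ U)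
    (hss : ∀ u ∈ U, S (S u) = 0 → S u = 0) :
    ∀ z ∈ U, ∃ a ∈ U, ∃ b ∈ U, S a = 0 ∧ z = a + S b := by
  intro z hz
  set S0 : Module.End K U := S.restrict hst with hS0
  have hdis : Disjoint (LinearMap.ker S0) (LinearMap.range S0) := by
    rw [Submodule.disjoint_def]
    rintro _ hz ⟨w, rfl⟩
    rw [LinearMap.mem_ker] at hz
    apply Subtype.ext
    exact hss w w.2 (congrArg Subtype.val hz)
  have hsup : LinearMap.ker S0 ⊔ LinearMap.range S0 = ⊤ :=
    Submodule.eq_top_of_disjoint _ _ (by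
      rw [add_comm, LinearMap.finrank_range_add_finrank_ker]) hdis
  have hz' : (⟨z, hz⟩ : U) ∈ LinearMap.ker S0 ⊔ LinearMap.range S0 := by rw [hsup]; trivial
  obtain ⟨a, ha, _, ⟨b, rfl⟩, hab⟩ := Submodule.mem_sup.1 hz'
  exact ⟨a, a.2, b, b.2, congrArg Subtype.val (LinearMap.mem_ker.1 ha),
    (congrArg Subtype.val hab).symm⟩

section Sub

variable {A : Type*} [AddCommGroup A] [Module K A] [Module.Finite K A] {T : Module.End K V}
  {F : Module.End K A} {B C : Submodule K V} {U : Submodule K A} {g : A →ₗ[K] V} {μ : K}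

/-- Eigenvalues of a subquotient. -/
lemma eigen_of_sub (hB : ∀ x ∈ B, T x ∈ B) (hU : ∀ u ∈ U, F u ∈ U)
    (hg : ∀ x ∈ C, ∃ u ∈ U, x - g u ∈ B) (hgF : ∀ u ∈ U, g (F u) - T (g u) ∈ B) {y : V}
    (hy : y ∈ C) (hyB : y ∉ B) (hyT : T y - μ • y ∈ B) : ∃ u ∈ U, u ≠ 0 ∧ F u = μ • u := by
  by_contra hcon
  push Not at hcon
  obtain ⟨u, hu, hyu⟩ := hg y hy
  set U0 : Submodule K A := U ⊓ B.comap g with hU0
  have hst : ∀ a ∈ U0, (F - μ • 1) a ∈ U0 := by
    rintro a ⟨ha, hb⟩
    rw [LinearMap.sub_apply, LinearMap.smul_apply, Module.End.one_apply]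
    refine ⟨Submodule.sub_mem _ (hU a ha) (Submodule.smul_mem _ _ ha), ?_⟩
    change g (F a - μ • a) ∈ B
    change g a ∈ B at hb
    have h1 := Submodule.add_mem _ (hgF a ha) (hB _ hb)
    rw [sub_add_cancel] at h1
    rw [map_sub, map_smul]
    exact Submodule.sub_mem _ h1 (Submodule.smul_mem _ _ hb)
  have hinj : ∀ a ∈ U, (F - μ • 1) a = 0 → a = 0 := by
    intro a ha h1
    by_contra h2
    rw [LinearMap.sub_apply, LinearMap.smul_apply, Module.End.one_apply, sub_eq_zero] at h1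
    exact hcon a ha h2 h1
  have hSu : (F - μ • 1) u ∈ U0 := by
    rw [LinearMap.sub_apply, LinearMap.smul_apply, Module.End.one_apply]
    refine ⟨Submodule.sub_mem _ (hU u hu) (Submodule.smul_mem _ _ hu), ?_⟩
    change g (F u - μ • u) ∈ B
    have h1 := hgF u hu
    have h2 := hB _ hyu
    have h3 := Submodule.smul_mem B μ hyu
    rw [map_sub] at h2
    rw [smul_sub] at h3
    rw [map_sub, map_smul]
    have h4 : g (F u) - μ • g u = (g (F u) - T (g u)) - (T y - T (g u)) + (T y - μ • y) +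
        (μ • y - μ • g u) := by abel
    rw [h4]
    exact Submodule.add_mem _ (Submodule.add_mem _ (Submodule.sub_mem _ h1 h2) hyT) h3
  obtain ⟨a, ha, b, hb, ha0, hab⟩ := split hst
    (fun a ha h => by rw [hinj _ (hst a ha).1 h]) _ hSu
  have h5 : a = 0 := hinj a ha.1 ha0
  rw [h5, zero_add] at hab
  have h6 : u - b = 0 := hinj _ (Submodule.sub_mem _ hu hb.1) (by rw [map_sub, hab, sub_self])
  have h7 : u = b := sub_eq_zero.1 h6
  apply hyB
  have h8 : g u ∈ B := by rw [h7]; exact hb.2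
  have h9 := Submodule.add_mem _ hyu h8
  rwa [sub_add_cancel] at h9

/-- Jordan blocks of a subquotient. -/
lemma block_of_sub (hB : ∀ x ∈ B, T x ∈ B) (hU : ∀ u ∈ U, F u ∈ U)
    (hg : ∀ x ∈ C, ∃ u ∈ U, x - g u ∈ B) (hgF : ∀ u ∈ U, g (F u) - T (g u) ∈ B) {y : V}
    (hy : y ∈ C) (hyT : T (T y - μ • y) - μ • (T y - μ • y) ∈ B) (hyB : T y - μ • y ∉ B) :
    ∃ u ∈ U, (F - μ • 1) ((F - μ • 1) u) = 0 ∧ (F - μ • 1) u ≠ 0 := by
  by_contra hcon
  push Not at hcon
  obtain ⟨u, hu, hyu⟩ := hg y hy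
  set U0 : Submodule K A := U ⊓ B.comap g with hU0
  have hUst : ∀ a ∈ U, (F - μ • 1) a ∈ U := by
    intro a ha
    rw [LinearMap.sub_apply, LinearMap.smul_apply, Module.End.one_apply]
    exact Submodule.sub_mem _ (hU a ha) (Submodule.smul_mem _ _ ha)
  have hst : ∀ a ∈ U0, (F - μ • 1) a ∈ U0 := by
    rintro a ⟨ha, hb⟩
    refine ⟨hUst a ha, ?_⟩
    change g ((F - μ • 1) a) ∈ B
    rw [LinearMap.sub_apply, LinearMap.smul_apply, Module.End.one_apply]
    change g a ∈ B at hb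
    have h1 := Submodule.add_mem _ (hgF a ha) (hB _ hb)
    rw [sub_add_cancel] at h1
    rw [map_sub, map_smul]
    exact Submodule.sub_mem _ h1 (Submodule.smul_mem _ _ hb)
  -- the operator on `C / B` and on `U`
  have hstep : ∀ z a, a ∈ U → z - g a ∈ B → T z - μ • z - g ((F - μ • 1) a) ∈ B := by
    intro z a ha hz
    rw [LinearMap.sub_apply, LinearMap.smul_apply, Module.End.one_apply]
    have h1 := hgF a ha
    have h2 := hB _ hz
    have h3 := Submodule.smul_mem B μ hz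
    rw [map_sub] at h2
    rw [smul_sub] at h3
    rw [map_sub, map_smul]
    have h4 : T z - μ • z - (g (F a) - μ • g a) = (T z - T (g a)) - (g (F a) - T (g a)) -
        (μ • z - μ • g a) := by abel
    rw [h4]
    exact Submodule.sub_mem _ (Submodule.sub_mem _ h2 h1) h3
  have s1 := hstep y u hu hyu
  have s2 := hstep _ _ (hUst u hu) s1
  have hSSu : (F - μ • 1) ((F - μ • 1) u) ∈ U0 := by
    refine ⟨hUst _ (hUst u hu), ?_⟩
    change g _ ∈ B
    have h1 := Submodule.sub_mem _ hyT s2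
    rwa [sub_sub_cancel] at h1
  have hss0 : ∀ a ∈ U0, (F - μ • 1) ((F - μ • 1) a) = 0 → (F - μ • 1) a = 0 :=
    fun a ha => hcon a ha.1
  obtain ⟨a, ha, b, hb, ha0, hab⟩ := split hst hss0 _ hSSu
  obtain ⟨c, hc, d, hd, hc0, hcd⟩ := split hst hss0 _ hb
  have e1 : (F - μ • 1) ((F - μ • 1) u - b) = a := by rw [map_sub, hab, add_sub_cancel_right]
  have e2 : a = 0 := by
    have h1 := hcon ((F - μ • 1) u - b) (Submodule.sub_mem _ (hUst u hu) hb.1)
      (by rw [e1, ha0])
    rw [← e1, h1]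
  have e3 : (F - μ • 1) ((F - μ • 1) (u - d)) = 0 := by
    have h1 : (F - μ • 1) u - b = (F - μ • 1) (u - d) - c := by
      rw [hcd, map_sub]; abel
    have h2 := e1
    rw [h1, map_sub, hc0, sub_zero, e2] at h2
    exact h2
  have e4 := hcon (u - d) (Submodule.sub_mem _ hu hd.1) e3
  rw [map_sub, sub_eq_zero] at e4
  apply hyB
  have h8 : g ((F - μ • 1) u) ∈ B := by rw [e4]; exact (hst d hd).2
  have h9 := Submodule.add_mem _ s1 h8
  rwa [sub_add_cancel] at h9

end Sub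

end Pool.Agent.R937.JC
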