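import Pool.Agent.R937.JC.Defs
import Pool.Agent.R937.JC.Lin
import Pool.Agent.R937.JB.C

/-!
# Frobenius on the cohomology of complete varieties
-/

open CategoryTheory AlgebraicGeometry

universe u v w

namespace Pool.Agent.R937.JC

open Pool.Agent.H914 Pool.Agent.R937.JB VarClass Obj WeilCohomology

variable {k : Type u} [Field k] {𝒱 : VarClass k} {ops : CycleOps 𝒱}
  {W : WeilCohomology.{u, v} ops} {q : ℕ} {F : Frobenius W q} {X Y Z : 𝒱.Obj} {d : ℕ}

lemma hasBlock_iff {i : ℕ} {μ : W.K} : HasBlock F X i μ ↔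
    ∃ x ∈ W.gr X i, frob F X (frob F X x - μ • x) - μ • (frob F X x - μ • x) = 0 ∧
      frob F X x - μ • x ≠ 0 := by
  have e : ∀ x : W.H X, (frob F X - μ • 1) x = frob F X x - μ • x := fun x => rfl
  constructor
  · intro h
    unfold HasBlock BlocksAtMost at h
    push Not at h
    obtain ⟨x, hx, h1, h2⟩ := h
    rw [pow_succ', pow_one, Module.End.mul_apply, e, e] at h1
    rw [pow_one, e] at h2
    exact ⟨x, hx, h1, h2⟩
  · rintro ⟨x, hx, h1, h2⟩ h
    have h3 := h x hx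
    rw [pow_succ', pow_one, Module.End.mul_apply, e, e] at h3
    exact h2 (h3 h1)

lemma HasBlock.le {i : ℕ} {μ : W.K} (h : HasBlock F X i μ) : i ≤ 2 * X.dim := by
  obtain ⟨x, hx, _, h1⟩ := hasBlock_iff.1 h
  by_contra hi
  rw [W.gr_eq_bot _ _ (by omega)] at hx
  rw [(Submodule.mem_bot _).1 hx, map_zero, smul_zero, sub_zero] at h1
  exact h1 rfl

/-- Poincaré duality. -/
lemma HasBlock.dual {i : ℕ} {l : W.K} (h : HasBlock F X i l) :
    ∃ m, HasBlock F X (2 * X.dim - i) m := by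
  have hi := h.le
  have hq := q_ne F
  obtain ⟨x, hx, h0, h1⟩ := hasBlock_iff.1 h
  set y := frob F X x - l • x with hyd
  have hFx : frob F X x = l • x + y := by rw [hyd]; abel
  have hFy : frob F X y = l • y := sub_eq_zero.1 h0
  clear_value y
  have hl : l ≠ 0 := by
    rintro rfl
    rw [zero_smul] at hFy
    have h2 := frob_pair (F := F) y
    refine h1 (W.nondeg _ fun b => ?_)
    have h3 := h2 b
    rw [hFy, zero_mul, map_zero] at h3
    exact (mul_eq_zero.1 h3.symm).resolve_left (pow_ne_zero _ hq)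
  obtain ⟨m, hlm⟩ : ∃ m, l * m = (q : W.K) ^ X.dim := ⟨l⁻¹ * (q : W.K) ^ X.dim, by
    rw [← mul_assoc, mul_inv_cancel₀ hl, one_mul]⟩
  have hst : ∀ j, ∀ a ∈ W.gr X j, frob F X a ∈ W.gr X j := fun j a ha => frob_mem ha
  obtain ⟨x', h2, h3⟩ := exists_dual (V := W.gr X i) (V' := W.gr X (2 * X.dim - i))
    (B := ((LinearMap.mul W.K (W.H X)).compr₂ (W.tr X)).domRestrict₁₂ _ _)
    (T := (frob F X).restrict (hst i))
    (T' := (frob F X).restrict (hst (2 * X.dim - i))) (c := (q : W.K) ^ X.dim) (l := l) (m := m)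
    (by
      rintro ⟨a, ha⟩ hab
      apply Subtype.ext
      change a = 0
      apply W.nondeg
      intro b
      refine gr_induction (W.isInternal X) (p := fun b => W.tr X (a * b) = 0) ?_ ?_ b
      · intro j b hb
        by_cases hj : j = 2 * X.dim - i
        · subst hj
          exact hab ⟨b, hb⟩
        · exact W.tr_eq_zero (W.mul_mem ha hb) (by omega)
      · intro b b' hb hb'
        rw [mul_add, map_add, hb, hb', add_zero])
    (fun a b => frob_pair (a : W.H X) (b : W.H X)) hlm (pow_ne_zero _ hq) (x := ⟨x, hx⟩)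
    (by
      apply Subtype.ext
      change frob F X (frob F X x - l • x) - l • (frob F X x - l • x) = 0
      rw [hFx, add_sub_cancel_left, hFy, sub_self])
    (by
      intro h4
      have h5 := congrArg Subtype.val h4
      change frob F X x - l • x = 0 at h5
      rw [hFx, add_sub_cancel_left] at h5
      exact h1 h5)
  exact ⟨m, hasBlock_iff.2 ⟨x', x'.2, congrArg Subtype.val h2, fun h4 => h3 (Subtype.ext h4)⟩⟩

/-- The Jordan blocks on a complete variety come from smooth projective varieties. -/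
lemma locate (hF : IsPure F) (X : CompleteVariety.{u, v, w} F d) {i : ℕ} {μ : W.K}
    (h : ¬ BlocksAtMost (X.coh.φ i) ⊤ μ 1) :
    ∃ (b : ℕ) (S : 𝒱.Obj), 2 ≤ b ∧ b ≤ i ∧ 2 * i + 2 ≤ b + 2 * d ∧ S.dim + i ≤ d + b ∧
      HasBlock F S b μ := by
  unfold BlocksAtMost at h
  push Not at h
  obtain ⟨x, _, h1, h2⟩ := h
  have e : ∀ x : X.coh.H i, (X.coh.φ i - μ • 1) x = X.coh.φ i x - μ • x := fun x => rfl
  rw [pow_succ', pow_one, Module.End.mul_apply, e, e] at h1
  rw [pow_one, e] at h2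
  have hdes : ∀ b, b ≤ i → ∃ (n : ℕ) (S : Fin n → 𝒱.Obj) (U : Submodule W.K (∀ j, W.H (S j)))
      (g : (∀ j, W.H (S j)) →ₗ[W.K] X.coh.H i) (FS : Module.End W.K (∀ j, W.H (S j))),
      (∀ u j, FS u j = frob F (S j) (u j)) ∧
      (∀ j, (S j).dim + i ≤ d + b) ∧ (∀ u ∈ U, ∀ j, u j ∈ W.gr (S j) b) ∧
      (∀ u ∈ U, FS u ∈ U) ∧
      (∀ x ∈ X.coh.fil i (b + 1), ∃ u ∈ U, x - g u ∈ X.coh.fil i b) ∧
      ∀ u ∈ U, g (FS u) - X.coh.φ i (g u) ∈ X.coh.fil i b := by
    intro b hb
    obtain ⟨n, S, h3, U, g, h4, h5, h6, h7⟩ := X.subquotient i b hb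
    exact ⟨n, S, U, g, frobSum F S, fun u j => rfl, h3,
      fun u hu j => h4 hu j (Set.mem_univ j), h5, h6, h7⟩
  have heig : ∀ b, b ≤ i → (∃ y ∈ X.coh.fil i (b + 1), y ∉ X.coh.fil i b ∧ X.coh.φ i y - μ • y ∈ X.coh.fil i b) →
      ∃ (S : 𝒱.Obj), HasEigenvalueIn F S b μ := by
    rintro b hb ⟨y, hy, hy1, hy2⟩
    obtain ⟨n, S, U, g, FS, h3, h4, h5, h6, h7, h8⟩ := hdes b hb
    obtain ⟨u, hu, hu0, hFu⟩ := eigen_of_sub (X.coh.fil_stable i b) h6 h7 h8 hy hy1 hy2
    obtain ⟨j, hj⟩ : ∃ j, u j ≠ 0 := by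
      by_contra hcon
      push Not at hcon
      exact hu0 (funext hcon)
    refine ⟨S j, u j, h5 u hu j, hj, ?_⟩
    rw [← h3, hFu]
    rfl
  rcases block_of_fil (X.coh.fil_zero i) (X.coh.fil_top i) (X.coh.fil_mono i) h1 h2 with
    ⟨b, c, hb, hc, h3, h4⟩ | ⟨b, hb, y, hy, hy1, hy2⟩
  · obtain ⟨S, hS⟩ := heig b (by omega) h3
    obtain ⟨S', hS'⟩ := heig c (by omega) h4
    have := hF.weights S S' b c μ hS hS'
    omega
  · obtain ⟨n, S, U, g, FS, h3, h4, h5, h6, h7, h8⟩ := hdes b (by omega)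
    obtain ⟨u, hu, hu1, hu2⟩ := block_of_sub (X.coh.fil_stable i b) h6 h7 h8 hy hy1 hy2
    have hcoord : ∀ (u : ∀ j, W.H (S j)) (j : Fin n),
        ((FS - μ • 1) u) j = frob F (S j) (u j) - μ • u j := by
      intro u j
      rw [LinearMap.sub_apply, LinearMap.smul_apply, Module.End.one_apply, Pi.sub_apply, h3,
        Pi.smul_apply]
    obtain ⟨j, hj⟩ : ∃ j, ((FS - μ • 1) u) j ≠ 0 := by
      by_contra hcon
      push Not at hcon
      exact hu2 (funext hcon)
    have hblock : HasBlock F (S j) b μ := by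
      refine hasBlock_iff.2 ⟨u j, h5 u hu j, ?_, ?_⟩
      · rw [← hcoord, ← hcoord, hu1]
        rfl
      · rw [← hcoord]
        exact hj
    have hble := hblock.le
    have h4j := h4 j
    refine ⟨b, S j, ?_, by omega, ?_, h4 j, hblock⟩
    · by_contra hcon
      have h9 : b = 0 ∨ b = 1 := by omega
      rcases h9 with rfl | rfl
      · exact hF.zero _ _ hblock
      · exact hF.one _ _ hblock
    · by_contra hcon
      obtain ⟨m, hm⟩ := hblock.dual
      have h9 : 2 * (S j).dim - b = 0 ∨ 2 * (S j).dim - b = 1 := by omega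
      rcases h9 with h9 | h9
      · rw [h9] at hm
        exact hF.zero _ _ hm
      · rw [h9] at hm
        exact hF.one _ _ hm

/-- Semisimplicity if there are no Jordan blocks. -/
lemma semisimple_of_noBlock [IsAlgClosed W.K] (X : CompleteVariety.{u, v, w} F d) {i : ℕ}
    (h : ∀ μ, BlocksAtMost (X.coh.φ i) ⊤ μ 1) : (X.coh.φ i).IsSemisimple := by
  refine isSemisimple_of_diag fun μ x hx => ?_
  have e : ∀ x : X.coh.H i, (X.coh.φ i - μ • 1) x = X.coh.φ i x - μ • x := fun x => rfl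
  have h1 := h μ x trivial
  rw [pow_succ', pow_one, Module.End.mul_apply, e, e] at h1
  exact h1 hx

/-- The cohomology in the outer degrees. -/
lemma semisimple_outer [IsAlgClosed W.K] (hF : IsPure F) (X : CompleteVariety.{u, v, w} F d)
    {i : ℕ} (hi : i ≤ 1 ∨ 2 * d ≤ i + 1) : (X.coh.φ i).IsSemisimple := by
  refine semisimple_of_noBlock X fun μ => ?_
  by_contra hcon
  obtain ⟨b, S, h1, h2, h3, h4, h5⟩ := locate hF X hcon
  omega

/-- Semisimplicity for complete varieties and for smooth projective varieties. -/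
lemma complete_iff [IsAlgClosed W.K] (hF : IsPure F) {C : Type*} {dimC : C → ℕ}
    (var : ∀ X : C, CompleteVariety.{u, v, w} F (dimC X))
    (hC : ∀ V : 𝒱.Obj, ∃ X : C, IsSmoothModel (var X) V) :
    (∀ (X : C) (i : ℕ), ((var X).coh.φ i).IsSemisimple) ↔ ∀ V : 𝒱.Obj, FrobSemisimple F V := by
  constructor
  · intro h V
    obtain ⟨X, hX⟩ := hC V
    refine isSemisimple_of_diag (diag_of_graded fun i l x hx hx1 => ?_)
    obtain ⟨e, he, hcomm⟩ := hX i
    have hst : ∀ a ∈ W.gr V i, frob F V a ∈ W.gr V i := fun a ha => frob_mem ha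
    have h1 := diag_of_isSemisimple (h X i)
    have hy : frob F V x - l • x ∈ W.gr V i :=
      Submodule.sub_mem _ (hst x hx) (Submodule.smul_mem _ _ hx)
    have e1 : e (frob F V x - l • x) = (var X).coh.φ i (e x) - l • e x := by
      rw [map_sub, map_smul, hcomm x hx]
    have e2 := hcomm _ hy
    have e3 : e (frob F V (frob F V x - l • x)) = l • e (frob F V x - l • x) := by
      rw [← map_smul]
      congr 1
      exact sub_eq_zero.1 hx1
    have h3 := h1 l (e x) (by rw [← e1, ← e2, e3, sub_self])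
    rw [← e1] at h3
    exact he _ hy h3
  · intro h X i
    refine semisimple_of_noBlock _ fun μ => ?_
    by_contra hcon
    obtain ⟨b, S, h1, h2, h3, h4, h5⟩ := locate hF (var X) hcon
    obtain ⟨x, hx, h6, h7⟩ := hasBlock_iff.1 h5
    exact h7 (diag_of_isSemisimple (h S) μ x h6)

/-- **Sublinear bounds for the Jordan blocks and complete varieties.** -/
lemma complete_tfae [IsAlgClosed W.K] (hF : IsPure F) {C : Type*} {dimC : C → ℕ}
    (var : ∀ X : C, CompleteVariety.{u, v, w} F (dimC X))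
    (hC : ∀ V : 𝒱.Obj, ∃ X : C, IsSmoothModel (var X) V) :
    List.TFAE [∀ (X : C) (i : ℕ), ((var X).coh.φ i).IsSemisimple,
      ∀ (V : 𝒱.Obj) (j : ℕ), V.dim = 2 * j → TateBlocks F V j 2,
      ∃ b : ℕ → ℕ, (∀ C : ℕ, ∃ N, ∀ n ≥ N, C * b n ≤ n) ∧
        ∀ (V : 𝒱.Obj) (j : ℕ), V.dim = 2 * j → TateBlocks F V j (b j)] := by
  have h := all_tfae F
  tfae_have 1 ↔ 2 := (complete_iff hF var hC).trans (h.out 0 1)
  tfae_have 1 ↔ 3 := (complete_iff hF var hC).trans (h.out 0 2)
  tfae_finish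

end Pool.Agent.R937.JC
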