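import Pool.Agent.R937.JB.Defs

/-!
# Frobenius on the cohomology of complete varieties: definitions
-/

open CategoryTheory AlgebraicGeometry

universe u v w

namespace Pool.Agent.R937.JC

open Pool.Agent.H914 Pool.Agent.R937.JB VarClass Obj WeilCohomology

variable {k : Type u} [Field k] {𝒱 : VarClass k} {ops : CycleOps 𝒱}
  {W : WeilCohomology.{u, v} ops} {q : ℕ}

/-- Frobenius has a Jordan block of size at least two on `H^i(X)` for the eigenvalue `μ`. -/
def HasBlock (F : Frobenius W q) (X : 𝒱.Obj) (i : ℕ) (μ : W.K) : Prop :=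
  ¬ BlocksAtMost (frob F X) (W.gr X i) μ 1

/-- `μ` is an eigenvalue of Frobenius on `H^i(X)`. -/
def HasEigenvalueIn (F : Frobenius W q) (X : 𝒱.Obj) (i : ℕ) (μ : W.K) : Prop :=
  ∃ x ∈ W.gr X i, x ≠ 0 ∧ frob F X x = μ • x

/-- The theorems of Deligne (the eigenvalues in different degrees are different) and of Weil
(semisimplicity on `H^1`) for smooth projective varieties, and semisimplicity on `H^0`. -/
structure IsPure (F : Frobenius W q) : Prop where
  weights : ∀ (X Y : 𝒱.Obj) (i j : ℕ) (μ : W.K), HasEigenvalueIn F X i μ →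
    HasEigenvalueIn F Y j μ → i = j
  zero : ∀ (X : 𝒱.Obj) (μ : W.K), ¬ HasBlock F X 0 μ
  one : ∀ (X : 𝒱.Obj) (μ : W.K), ¬ HasBlock F X 1 μ

/-- The operator `T` on `C / B` is a subquotient of the operator `A` on `G`: it is the quotient, by `g`,
of the operation of `A` on an invariant subspace `U` of `G`. -/
def IsSubquotientOf {K V M : Type*} [Field K] [AddCommGroup V] [Module K V] [AddCommGroup M]
    [Module K M] (T : Module.End K V) (B C : Submodule K V) (A : Module.End K M)
    (G : Submodule K M) : Prop :=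
  ∃ (U : Submodule K M) (g : M →ₗ[K] V), U ≤ G ∧ (∀ u ∈ U, A u ∈ U) ∧
    (∀ x ∈ C, ∃ u ∈ U, x - g u ∈ B) ∧ ∀ u ∈ U, g (A u) - T (g u) ∈ B

/-- The operation of `A` on the invariant subspace `G` embeds into the operation of `T`. -/
def EmbedsInto {K V M : Type*} [Field K] [AddCommGroup V] [Module K V] [AddCommGroup M]
    [Module K M] (A : Module.End K M) (G : Submodule K M) (T : Module.End K V) : Prop :=
  ∃ e : M →ₗ[K] V, (∀ x ∈ G, e x = 0 → x = 0) ∧ ∀ x ∈ G, e (A x) = T (e x)

/-- Graded spaces with an operator and a filtration. -/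
structure FilteredSpaces (K : Type v) [Field K] where
  H : ℕ → Type w
  [grp : ∀ i, AddCommGroup (H i)]
  [mod : ∀ i, Module K (H i)]
  [fin : ∀ i, Module.Finite K (H i)]
  /-- the operation of Frobenius -/
  φ : ∀ i, Module.End K (H i)
  /-- the weight filtration: `fil i (b + 1)` is the part of `H i` of weight at most `b` -/
  fil : ∀ i, ℕ → Submodule K (H i)
  fil_zero : ∀ i, fil i 0 = ⊥
  fil_top : ∀ i, fil i (i + 1) = ⊤
  fil_mono : ∀ i, Monotone (fil i)
  fil_stable : ∀ i b, ∀ x ∈ fil i b, φ i x ∈ fil i b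

attribute [instance] FilteredSpaces.grp FilteredSpaces.mod FilteredSpaces.fin

/-- Frobenius on a finite direct sum of cohomology groups. -/
noncomputable def frobSum (F : Frobenius W q) {n : ℕ} (S : Fin n → 𝒱.Obj) :
    Module.End W.K (∀ j, W.H (S j)) :=
  LinearMap.pi fun j => frob F (S j) ∘ₗ LinearMap.proj j

/-- The direct sum of the cohomology groups of degree `b`. -/
def degreeSum (W : WeilCohomology.{u, v} ops) {n : ℕ} (S : Fin n → 𝒱.Obj) (b : ℕ) :
    Submodule W.K (∀ j, W.H (S j)) :=
  Submodule.pi Set.univ fun j => W.gr (S j) b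

/-- The cohomology of a complete variety of dimension at most `d`, with the operation of Frobenius and
the weight filtration: the graded piece of weight `b` of `H^i` is a subquotient of a finite direct
sum of cohomology groups `H^b(S j)` of smooth projective varieties of dimension at most
`d - (i - b)`. -/
structure CompleteVariety (F : Frobenius W q) (d : ℕ) where
  coh : FilteredSpaces.{v, w} W.K
  subquotient : ∀ i b, b ≤ i → ∃ (n : ℕ) (S : Fin n → 𝒱.Obj), (∀ j, (S j).dim + i ≤ d + b) ∧
    IsSubquotientOf (coh.φ i) (coh.fil i b) (coh.fil i (b + 1)) (frobSum F S) (degreeSum W S b)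

/-- `X` is the smooth projective variety `V`: the cohomology of `V` embeds into that of `X`. -/
def IsSmoothModel {F : Frobenius W q} {d : ℕ} (X : CompleteVariety.{u, v, w} F d) (V : 𝒱.Obj) :
    Prop :=
  ∀ i, EmbedsInto (frob F V) (W.gr V i) (X.coh.φ i)

end Pool.Agent.R937.JC
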